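import Mathlib

/-!
# A Poisson homeomorphism that does not lift to the symplectic groupoid

For every `n ≥ 1` there is a Poisson homeomorphism `φ` of `ℝ^n` with the zero bracket (that is, a
homeomorphism which is a `C^0` limit of diffeomorphisms) such that no symplectic homeomorphism `Ψ`
of the canonical integration `π : T^*ℝ^n = ℝ^n × ℝ^n → ℝ^n` satisfies `π ∘ Ψ = φ ∘ π`.

Idea: symplectic diffeomorphisms preserve the volume, hence symplectic homeomorphisms do not shrink
the volume of a compact set. But `φ` maps some compact set of positive measure to a null set, so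
that every `Ψ` over `φ` maps a compact set of positive volume to a null set.
-/

open Set Filter MeasureTheory
open scoped ContDiff Topology

namespace Pool.Agent.Results.MP_bef951_gt.ZeroBracketNoLift

/-- `C^0` convergence of maps: uniform convergence on compact subsets. -/
def C0Tendsto {X Y : Type*} [TopologicalSpace X] [UniformSpace Y] (F : ℕ → X → Y) (φ : X → Y) :
    Prop :=
  ∀ K : Set X, IsCompact K → TendstoUniformlyOn F φ atTop K

/-- A bracket on functions on `ℝ^n`: it assigns to two functions a function. -/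
abbrev Bracket (n : ℕ) : Type :=
  ((Fin n → ℝ) → ℝ) → ((Fin n → ℝ) → ℝ) → (Fin n → ℝ) → ℝ

/-- The zero Poisson bracket on `ℝ^n`. -/
def zeroBracket (n : ℕ) : Bracket n := fun _ _ _ => 0

/-- `ψ` is a Poisson diffeomorphism of `ℝ^n` with the bracket `br`: a smooth map with smooth
inverse such that `{f ∘ ψ, g ∘ ψ} = {f, g} ∘ ψ` for all smooth `f`, `g`. -/
def IsPoissonDiffeo {n : ℕ} (br : Bracket n) (ψ : (Fin n → ℝ) ≃ₜ (Fin n → ℝ)) : Prop :=
  ContDiff ℝ ∞ ψ ∧ ContDiff ℝ ∞ ψ.symm ∧
    ∀ f g : (Fin n → ℝ) → ℝ, ContDiff ℝ ∞ f → ContDiff ℝ ∞ g →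
      br (f ∘ ψ) (g ∘ ψ) = br f g ∘ ψ

/-- `φ` is a Poisson homeomorphism of `ℝ^n` with the bracket `br`: a homeomorphism which is the
`C^0` limit of a sequence of Poisson diffeomorphisms. -/
def IsPoissonHomeo {n : ℕ} (br : Bracket n) (φ : (Fin n → ℝ) ≃ₜ (Fin n → ℝ)) : Prop :=
  ∃ F : ℕ → ((Fin n → ℝ) ≃ₜ (Fin n → ℝ)),
    (∀ k, IsPoissonDiffeo br (F k)) ∧ C0Tendsto (fun k => ⇑(F k)) φ

/-- The cotangent bundle `T^*ℝ^n = ℝ^n × ℝ^n`, with bundle projection `Prod.fst`. -/
abbrev Cot (n : ℕ) : Type := (Fin n → ℝ) × (Fin n → ℝ)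

/-- The canonical symplectic form `∑ dx_i ∧ dp_i` of `T^*ℝ^n`, evaluated at two tangent
vectors. -/
def canonicalForm {n : ℕ} (u v : Cot n) : ℝ := ∑ i, (u.1 i * v.2 i - u.2 i * v.1 i)

/-- `ψ` is a symplectic diffeomorphism of `T^*ℝ^n`. -/
def IsSymplecticDiffeo {n : ℕ} (ψ : Cot n ≃ₜ Cot n) : Prop :=
  ContDiff ℝ ∞ ψ ∧ ContDiff ℝ ∞ ψ.symm ∧
    ∀ z u v : Cot n, canonicalForm (fderiv ℝ ψ z u) (fderiv ℝ ψ z v) = canonicalForm u v

/-- `Ψ` is a symplectic homeomorphism of `T^*ℝ^n`: a homeomorphism which is the `C^0` limit of a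
sequence of symplectic diffeomorphisms. -/
def IsSymplecticHomeo {n : ℕ} (Ψ : Cot n ≃ₜ Cot n) : Prop :=
  ∃ F : ℕ → (Cot n ≃ₜ Cot n),
    (∀ k, IsSymplecticDiffeo (F k)) ∧ C0Tendsto (fun k => ⇑(F k)) Ψ

/-! ### Symplectic diffeomorphisms preserve the volume -/

section Volume

variable {n : ℕ}

/-- The canonical form as a bilinear form. -/
noncomputable def B (n : ℕ) : LinearMap.BilinForm ℝ (Cot n) :=
  LinearMap.mk₂ ℝ (fun u v : Cot n => canonicalForm u v)
    (by
      intro a b c
      simp only [canonicalForm, Prod.fst_add, Prod.snd_add, Pi.add_apply]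
      rw [← Finset.sum_add_distrib]
      exact Finset.sum_congr rfl fun i _ => by ring)
    (by
      intro r a b
      simp only [canonicalForm, Prod.smul_fst, Prod.smul_snd, Pi.smul_apply, smul_eq_mul]
      rw [Finset.mul_sum]
      exact Finset.sum_congr rfl fun i _ => by ring)
    (by
      intro a b c
      simp only [canonicalForm, Prod.fst_add, Prod.snd_add, Pi.add_apply]
      rw [← Finset.sum_add_distrib]
      exact Finset.sum_congr rfl fun i _ => by ring)
    (by
      intro r a b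
      simp only [canonicalForm, Prod.smul_fst, Prod.smul_snd, Pi.smul_apply, smul_eq_mul]
      rw [Finset.mul_sum]
      exact Finset.sum_congr rfl fun i _ => by ring)

lemma B_apply (u v : Cot n) : B n u v = canonicalForm u v := rfl

lemma B_nondegenerate (n : ℕ) : (B n).Nondegenerate := by
  have key : ∀ m : Cot n, (∀ v, canonicalForm m v = 0) → m = 0 := by
    intro m hm
    have h1 : m.1 = 0 := by
      funext i
      have := hm (0, Pi.single i 1)
      simpa [canonicalForm, Pi.single_apply] using this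
    have h2 : m.2 = 0 := by
      funext i
      have := hm (Pi.single i 1, 0)
      simpa [canonicalForm, Pi.single_apply] using this
    exact Prod.ext h1 h2
  have hsymm : ∀ u v : Cot n, canonicalForm u v = - canonicalForm v u := by
    intro u v
    simp only [canonicalForm]
    rw [← Finset.sum_neg_distrib]
    exact Finset.sum_congr rfl fun i _ => by ring
  refine ⟨fun m hm => key m fun v => hm v, fun m hm => key m fun v => ?_⟩
  rw [hsymm, ← B_apply, hm v, neg_zero]

lemma abs_det_eq_one (L : Cot n →ₗ[ℝ] Cot n)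
    (hL : ∀ u v, canonicalForm (L u) (L v) = canonicalForm u v) :
    |LinearMap.det L| = 1 := by
  classical
  let b := Module.finBasis ℝ (Cot n)
  have hB : (B n).comp L L = B n := by
    ext u v <;> simp [B_apply, hL]
  have h1 : (LinearMap.BilinForm.toMatrix b (B n)).det ≠ 0 :=
    (LinearMap.BilinForm.nondegenerate_iff_det_ne_zero b).1 (B_nondegenerate n)
  have h2 := LinearMap.BilinForm.toMatrix_comp b b (B n) L L
  rw [hB] at h2
  have h3 := congrArg Matrix.det h2
  rw [Matrix.det_mul, Matrix.det_mul, Matrix.det_transpose, LinearMap.det_toMatrix] at h3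
  have h4 : LinearMap.det L * LinearMap.det L = 1 := by
    have : (LinearMap.BilinForm.toMatrix b (B n)).det * (LinearMap.det L * LinearMap.det L - 1)
        = 0 := by linear_combination -h3
    rcases mul_eq_zero.1 this with h | h
    · exact absurd h h1
    · linarith
  rw [← abs_mul_abs_self, ← sq] at h4
  exact (pow_eq_one_iff_of_nonneg (abs_nonneg _) two_ne_zero).1 h4

instance : (volume : Measure (Cot n)).IsAddHaarMeasure :=
  Measure.prod.instIsAddHaarMeasure _ _

lemma volume_image {ψ : Cot n ≃ₜ Cot n} (hψ : IsSymplecticDiffeo ψ) {K : Set (Cot n)}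
    (hK : MeasurableSet K) : volume (ψ '' K) = volume K := by
  have h := lintegral_abs_det_fderiv_eq_addHaar_image (volume : Measure (Cot n)) hK
    (f := ψ) (f' := fun z => fderiv ℝ ψ z)
    (fun z _ => ((hψ.1.differentiable (by simp)) z).hasFDerivAt.hasFDerivWithinAt)
    ψ.injective.injOn
  rw [← h]
  have h1 : ∀ z, |(fderiv ℝ ψ z).det| = 1 := fun z =>
    abs_det_eq_one ((fderiv ℝ ψ z : Cot n →L[ℝ] Cot n) : Cot n →ₗ[ℝ] Cot n) (hψ.2.2 z)
  simp [h1]

/-- A symplectic homeomorphism does not shrink the volume of a compact set. -/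
lemma volume_le_volume_image {Ψ : Cot n ≃ₜ Cot n} (hΨ : IsSymplecticHomeo Ψ) {K : Set (Cot n)}
    (hK : IsCompact K) : volume K ≤ volume (Ψ '' K) := by
  obtain ⟨F, hF, hlim⟩ := hΨ
  rw [Set.measure_eq_iInf_isOpen (Ψ '' K)]
  refine le_iInf fun V => le_iInf fun hKV => le_iInf fun hV => ?_
  have hcomp : IsCompact (Ψ '' K) := hK.image Ψ.continuous
  obtain ⟨ε, hε, hsub⟩ := hcomp.exists_thickening_subset_open hV hKV
  have h1 := Metric.tendstoUniformlyOn_iff.1 (hlim K hK) ε hε
  obtain ⟨k, hk⟩ := h1.exists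
  have h2 : F k '' K ⊆ V := by
    rintro _ ⟨z, hz, rfl⟩
    refine hsub (Metric.mem_thickening_iff.2 ⟨Ψ z, mem_image_of_mem _ hz, ?_⟩)
    rw [dist_comm]
    exact hk z hz
  calc volume K = volume (F k '' K) := (volume_image (hF k) hK.measurableSet).symm
    _ ≤ volume V := measure_mono h2

end Volume

/-! ### A smooth homeomorphism of the line with a large critical set -/

section Line

lemma exists_density : ∃ (f : ℝ → ℝ) (C : Set ℝ), ContDiff ℝ ∞ f ∧ (∀ t, 0 ≤ f t) ∧
    IsCompact C ∧ volume C ≠ 0 ∧ (∀ t ∈ C, f t = 0) ∧ (∀ t, 2 ≤ t → 1 ≤ f t) ∧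
    (∀ t, t ≤ -1 → 1 ≤ f t) ∧ ∀ a b : ℝ, a < b → ∃ c ∈ Set.Icc a b, 0 < f c := by
  obtain ⟨U, hQU, hUo, hU⟩ := Set.exists_isOpen_lt_of_lt (μ := (volume : Measure ℝ))
    (Set.range ((↑) : ℚ → ℝ)) (1 / 2) (by
      rw [(Set.countable_range _).measure_zero]
      simp)
  obtain ⟨f₀, hsupp, hsm, hrange⟩ := hUo.exists_contDiff_support_eq (n := ⊤)
  have hf0 : ∀ t, 0 ≤ f₀ t := fun t => (hrange (mem_range_self t)).1
  refine ⟨fun t => f₀ t + Real.smoothTransition (t - 1) + Real.smoothTransition (-t),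
    Set.Icc 0 1 \ U, ?_, ?_, ?_, ?_, ?_, ?_, ?_, ?_⟩
  · refine ContDiff.add (ContDiff.add hsm ?_) ?_
    · exact Real.smoothTransition.contDiff.comp (contDiff_id.sub contDiff_const)
    · exact Real.smoothTransition.contDiff.comp contDiff_id.neg
  · intro t
    have := Real.smoothTransition.nonneg (t - 1)
    have := Real.smoothTransition.nonneg (-t)
    have := hf0 t
    positivity
  · exact isCompact_Icc.diff hUo
  · intro h
    have h1 : volume (Set.Icc (0 : ℝ) 1) ≤ volume (Set.Icc (0 : ℝ) 1 \ U) + volume U := by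
      refine le_trans (measure_mono ?_) (measure_union_le _ _)
      intro x hx
      by_cases hxU : x ∈ U
      · exact Or.inr hxU
      · exact Or.inl ⟨hx, hxU⟩
    rw [h, zero_add, Real.volume_Icc] at h1
    have h2 := lt_of_le_of_lt h1 hU
    norm_num at h2
  · rintro t ⟨⟨h0, h1⟩, hU⟩
    have h2 : f₀ t = 0 := by
      by_contra h
      exact hU (hsupp ▸ h)
    have h3 := Real.smoothTransition.zero_of_nonpos (x := t - 1) (by linarith)
    have h4 := Real.smoothTransition.zero_of_nonpos (x := -t) (by linarith)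
    simp only [h2, h3, h4, add_zero]
  · intro t ht
    have h1 := Real.smoothTransition.one_of_one_le (x := t - 1) (by linarith)
    have := Real.smoothTransition.nonneg (-t)
    have := hf0 t
    show 1 ≤ f₀ t + Real.smoothTransition (t - 1) + Real.smoothTransition (-t)
    linarith
  · intro t ht
    have h1 := Real.smoothTransition.one_of_one_le (x := -t) (by linarith)
    have := Real.smoothTransition.nonneg (t - 1)
    have := hf0 t
    show 1 ≤ f₀ t + Real.smoothTransition (t - 1) + Real.smoothTransition (-t)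
    linarith
  · intro a b hab
    obtain ⟨q, hq1, hq2⟩ := exists_rat_btwn hab
    refine ⟨q, ⟨hq1.le, hq2.le⟩, ?_⟩
    have h1 : (q : ℝ) ∈ Function.support f₀ := by
      rw [hsupp]
      exact hQU (mem_range_self q)
    have h2 : 0 < f₀ q := lt_of_le_of_ne (hf0 q) (Ne.symm h1)
    have := Real.smoothTransition.nonneg ((q : ℝ) - 1)
    have := Real.smoothTransition.nonneg (-(q : ℝ))
    show 0 < f₀ q + Real.smoothTransition ((q : ℝ) - 1) + Real.smoothTransition (-(q : ℝ))
    linarith

/-- The primitive of a density, as a homeomorphism of the line. -/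
lemma exists_homeo {f : ℝ → ℝ} (hf : Continuous f) (hf0 : ∀ t, 0 ≤ f t)
    (h2 : ∀ t, 2 ≤ t → 1 ≤ f t) (h1 : ∀ t, t ≤ -1 → 1 ≤ f t)
    (hd : ∀ a b : ℝ, a < b → ∃ c ∈ Set.Icc a b, 0 < f c) :
    ∃ H : ℝ ≃ₜ ℝ, ∀ x, H x = ∫ t in (0 : ℝ)..x, f t := by
  let h : ℝ → ℝ := fun x => ∫ t in (0 : ℝ)..x, f t
  have hint : ∀ a b : ℝ, IntervalIntegrable f volume a b := fun a b => hf.intervalIntegrable a b
  have hdiff : ∀ a b : ℝ, h b - h a = ∫ t in a..b, f t := fun a b =>
    intervalIntegral.integral_interval_sub_left (hint 0 b) (hint 0 a)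
  have hmono : StrictMono h := by
    intro a b hab
    have : 0 < ∫ t in a..b, f t :=
      intervalIntegral.integral_pos hab hf.continuousOn (fun x _ => hf0 x) (hd a b hab)
    rw [← hdiff] at this
    linarith
  have hcont : Continuous h := intervalIntegral.continuous_primitive hint 0
  have hh0 : h 0 = 0 := intervalIntegral.integral_same
  have htop : Tendsto h atTop atTop := by
    refine tendsto_atTop_mono' atTop ?_ (tendsto_atTop_add_const_right atTop (-2 : ℝ) tendsto_id)
    filter_upwards [eventually_ge_atTop (2 : ℝ)] with x hx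
    have e1 : (x - 2) ≤ ∫ t in (2 : ℝ)..x, f t := by
      have := intervalIntegral.integral_mono_on hx
        (_root_.intervalIntegrable_const (c := (1 : ℝ))) (hint 2 x)
        (fun t ht => h2 t ht.1)
      simpa using this
    have e2 := hdiff 2 x
    have e3 : h 0 ≤ h 2 := hmono.monotone (by norm_num)
    simp only [id]
    linarith
  have hbot : Tendsto h atBot atBot := by
    refine tendsto_atBot_mono' atBot ?_ (tendsto_atBot_add_const_right atBot (1 : ℝ) tendsto_id)
    filter_upwards [eventually_le_atBot (-1 : ℝ)] with x hx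
    have e1 : (-1 - x) ≤ ∫ t in x..(-1 : ℝ), f t := by
      have := intervalIntegral.integral_mono_on hx
        (_root_.intervalIntegrable_const (c := (1 : ℝ))) (hint x (-1))
        (fun t ht => h1 t ht.2)
      simpa using this
    have e2 := hdiff x (-1)
    have e3 : h (-1) ≤ h 0 := hmono.monotone (by norm_num)
    simp only [id]
    linarith
  have hsurj : Function.Surjective h := hcont.surjective htop hbot
  exact ⟨(StrictMono.orderIsoOfSurjective h hmono hsurj).toHomeomorph, fun x => rfl⟩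

lemma contDiff_homeo {f : ℝ → ℝ} (hf : ContDiff ℝ ∞ f) {H : ℝ ≃ₜ ℝ}
    (hH : ∀ x, H x = ∫ t in (0 : ℝ)..x, f t) :
    (∀ x, HasDerivAt H (f x) x) ∧ ContDiff ℝ ∞ H := by
  have e : (⇑H) = fun x => ∫ t in (0 : ℝ)..x, f t := funext hH
  have h1 : ∀ x, HasDerivAt H (f x) x := by
    intro x
    rw [e]
    exact intervalIntegral.integral_hasDerivAt_right (hf.continuous.intervalIntegrable _ _)
      (hf.continuous.stronglyMeasurableAtFilter _ _) hf.continuous.continuousAt
  refine ⟨h1, ?_⟩
  rw [contDiff_infty_iff_deriv]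
  refine ⟨fun x => (h1 x).differentiableAt, ?_⟩
  have : deriv H = f := funext fun x => (h1 x).deriv
  rw [this]
  exact hf

/-- There are a homeomorphism `H` of the line, which is a `C^0` limit of diffeomorphisms `G k`, and
a compact set of positive measure which `H` maps to a null set. -/
lemma exists_line : ∃ (H : ℝ ≃ₜ ℝ) (G : ℕ → ℝ ≃ₜ ℝ) (C : Set ℝ), IsCompact C ∧ volume C ≠ 0 ∧
    volume (H '' C) = 0 ∧ (∀ k, ContDiff ℝ ∞ (G k) ∧ ContDiff ℝ ∞ (G k).symm) ∧
    ∀ k x, G k x = H x + (1 / ((k : ℝ) + 1)) * x := by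
  obtain ⟨f, C, hf, hf0, hC, hvC, hfC, h2, h1, hd⟩ := exists_density
  obtain ⟨H, hH⟩ := exists_homeo hf.continuous hf0 h2 h1 hd
  have hpos : ∀ k : ℕ, (0 : ℝ) < 1 / ((k : ℝ) + 1) := fun k => by positivity
  have hG : ∀ k : ℕ, ∃ G : ℝ ≃ₜ ℝ, ∀ x, G x = ∫ t in (0 : ℝ)..x, (f t + 1 / ((k : ℝ) + 1)) := by
    intro k
    have := hpos k
    refine exists_homeo (hf.continuous.add continuous_const) (fun t => ?_) (fun t ht => ?_)
      (fun t ht => ?_) (fun a b hab => ⟨a, ⟨le_rfl, hab.le⟩, ?_⟩)
    · have := hf0 t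
      linarith
    · have := h2 t ht
      linarith
    · have := h1 t ht
      linarith
    · have := hf0 a
      linarith
  choose G hG using hG
  refine ⟨H, G, C, hC, hvC, ?_, fun k => ?_, fun k x => ?_⟩
  · have hder := (contDiff_homeo hf hH).1
    refine addHaar_image_eq_zero_of_det_fderivWithin_eq_zero volume
      (f' := fun x => ContinuousLinearMap.toSpanSingleton ℝ (f x))
      (fun x _ => (hder x).hasFDerivAt.hasFDerivWithinAt) fun x hx => ?_
    simp [hfC x hx]
  · have hsm : ContDiff ℝ ∞ fun t => f t + 1 / ((k : ℝ) + 1) := hf.add contDiff_const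
    obtain ⟨hder, hcd⟩ := contDiff_homeo hsm (hG k)
    refine ⟨hcd, Homeomorph.contDiff_symm_deriv (G k) (fun x => ?_) hder hcd⟩
    have := hf0 x
    have := hpos k
    positivity
  · rw [hG k, hH, intervalIntegral.integral_add (hf.continuous.intervalIntegrable _ _)
      (continuous_const.intervalIntegrable _ _)]
    simp [mul_comm]

end Line

/-- The answer to the question is negative, already for the zero bracket on `ℝ^n`, for every
`n ≥ 1`: some Poisson homeomorphism `φ` of `(ℝ^n, 0)` has no lift to a symplectic homeomorphism of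
the canonical integration `T^*ℝ^n`. -/
theorem result (n : ℕ) (hn : 1 ≤ n) :
    ∃ φ : (Fin n → ℝ) ≃ₜ (Fin n → ℝ), IsPoissonHomeo (zeroBracket n) φ ∧
      ¬ ∃ Ψ : Cot n ≃ₜ Cot n, IsSymplecticHomeo Ψ ∧
        (Prod.fst : Cot n → (Fin n → ℝ)) ∘ Ψ = φ ∘ (Prod.fst : Cot n → (Fin n → ℝ)) := by
  obtain ⟨H, G, C, hC, hvC, hHC, hG, hGH⟩ := exists_line
  refine ⟨Homeomorph.piCongrRight fun _ => H,
    ⟨fun k => Homeomorph.piCongrRight fun _ => G k, fun k => ⟨?_, ?_, ?_⟩, ?_⟩, ?_⟩
  · exact contDiff_pi.2 fun i => (hG k).1.comp (contDiff_apply ℝ ℝ i)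
  · exact contDiff_pi.2 fun i => (hG k).2.comp (contDiff_apply ℝ ℝ i)
  · intro f g _ _
    rfl
  · intro K hK
    rw [Metric.tendstoUniformlyOn_iff]
    intro ε hε
    obtain ⟨R, hR⟩ := hK.isBounded.exists_norm_le
    obtain ⟨N, hN⟩ := exists_nat_gt ((|R| + 1) / ε)
    filter_upwards [eventually_ge_atTop N] with k hk x hx
    rw [dist_pi_lt_iff hε]
    intro i
    show dist (H (x i)) (G k (x i)) < ε
    rw [hGH, Real.dist_eq, sub_add_cancel_left, abs_neg, abs_mul]
    have h1 : |x i| ≤ |R| := by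
      have h2 : ‖x i‖ ≤ ‖x‖ := norm_le_pi_norm x i
      have h3 := hR x hx
      rw [Real.norm_eq_abs] at h2
      exact h2.trans (h3.trans (le_abs_self R))
    have hk' : (N : ℝ) ≤ k := by exact_mod_cast hk
    have h4 : (|R| + 1) / ε < (k : ℝ) + 1 := by linarith
    have hpos : (0 : ℝ) < (k : ℝ) + 1 := by positivity
    rw [div_lt_iff₀ hε] at h4
    rw [abs_of_pos (by positivity : (0 : ℝ) < 1 / ((k : ℝ) + 1)), one_div, inv_mul_lt_iff₀ hpos]
    nlinarith [abs_nonneg (x i)]
  · rintro ⟨Ψ, hΨ, hcomm⟩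
    let K : Set (Cot n) := (Set.univ.pi fun _ => C) ×ˢ (Set.univ.pi fun _ => Set.Icc 0 1)
    have hK : IsCompact K :=
      (isCompact_univ_pi fun _ => hC).prod (isCompact_univ_pi fun _ => isCompact_Icc)
    have hvol := volume_le_volume_image hΨ hK
    have h1 : Ψ '' K ⊆ (Set.univ.pi fun _ => H '' C) ×ˢ Set.univ := by
      rintro _ ⟨z, hz, rfl⟩
      refine ⟨fun i _ => ?_, trivial⟩
      have h2 : (Ψ z).1 = Homeomorph.piCongrRight (fun _ => H) z.1 := congrFun hcomm z
      rw [h2]
      exact mem_image_of_mem _ (hz.1 i trivial)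
    have h3 : volume ((Set.univ.pi fun _ => H '' C) ×ˢ Set.univ : Set (Cot n)) = 0 := by
      rw [Measure.volume_eq_prod, Measure.prod_prod, volume_pi_pi]
      simp only [hHC, Finset.prod_const, Finset.card_univ, Fintype.card_fin]
      rw [zero_pow (by omega), zero_mul]
    have h4 : volume K = 0 := le_antisymm (hvol.trans ((measure_mono h1).trans h3.le)) zero_le
    have h5 : volume K ≠ 0 := by
      rw [Measure.volume_eq_prod, Measure.prod_prod, volume_pi_pi, volume_pi_pi]
      simp only [Real.volume_Icc, Finset.prod_const, Finset.card_univ, Fintype.card_fin]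
      exact mul_ne_zero (pow_ne_zero _ hvC) (by simp)
    exact h5 h4

end Pool.Agent.Results.MP_bef951_gt.ZeroBracketNoLift
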